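import Mathlib

/-!
# A regular graph whose independent domination number exceeds its saturation number

Take five Boolean variables. For every variable take a complete bipartite graph `K₁₂,₁₂` whose two
sides are the positive and the negative literal, and for every one of the `80` clauses with three
literals of distinct variables take one vertex joined to all the `36` vertices of its literals.
The graph is connected and `36`-regular. The perfect matchings of the `K₁₂,₁₂` form a maximal
matching with `60` edges, whereas every independent dominating set has at least `61` vertices.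
-/

namespace Pool.Agent.Results.MP_763dcb_co.ThirtySixRegular

variable {V : Type*}

/-- `S` is independent and dominating. -/
def IsIndepDominating (G : SimpleGraph V) (S : Finset V) : Prop :=
  (∀ u ∈ S, ∀ v ∈ S, ¬ G.Adj u v) ∧ ∀ v, v ∉ S → ∃ w ∈ S, G.Adj v w

/-- The independent domination number `i(G)`. -/
noncomputable def independentDominationNumber (G : SimpleGraph V) : ℕ :=
  sInf {k | ∃ S : Finset V, S.card = k ∧ IsIndepDominating G S}

/-- `M` is a matching: a finite set of pairwise disjoint edges of `G`. -/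
def IsMatchingSet (G : SimpleGraph V) (M : Finset (Sym2 V)) : Prop :=
  (∀ e ∈ M, e ∈ G.edgeSet) ∧ ∀ e ∈ M, ∀ f ∈ M, e ≠ f → ∀ v, v ∈ e → v ∉ f

/-- `M` is a maximal matching: no matching properly contains it. -/
def IsMaximalMatching (G : SimpleGraph V) (M : Finset (Sym2 V)) : Prop :=
  IsMatchingSet G M ∧ ∀ M' : Finset (Sym2 V), IsMatchingSet G M' → M ⊆ M' → M' = M

/-- The saturation number `μ*(G)`: least number of edges of a maximal matching. -/
noncomputable def saturationNumber (G : SimpleGraph V) : ℕ :=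
  sInf {k | ∃ M : Finset (Sym2 V), M.card = k ∧ IsMaximalMatching G M}

/-- Literal vertices: variable, sign, copy. -/
abbrev Lit := Fin 5 × Bool × Fin 12

/-- Clauses: a triple of variables (number in a table) and three signs. -/
abbrev Cl := Fin 10 × Bool × Bool × Bool

/-- First, second and third variable of the ten triples. -/
def t1 : Fin 10 → Fin 5 := ![0, 0, 0, 0, 0, 0, 1, 1, 1, 2]
def t2 : Fin 10 → Fin 5 := ![1, 1, 1, 2, 2, 3, 2, 2, 3, 3]
def t3 : Fin 10 → Fin 5 := ![2, 3, 4, 3, 4, 4, 3, 4, 4, 4]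

/-- The clause `c` contains the literal `(v, b)`. -/
def hasL (c : Cl) (v : Fin 5) (b : Bool) : Bool :=
  (v == t1 c.1 && b == c.2.1) || (v == t2 c.1 && b == c.2.2.1) || (v == t3 c.1 && b == c.2.2.2)

/-- Adjacency. -/
def adjB : Lit ⊕ Cl → Lit ⊕ Cl → Bool
  | .inl x, .inl y => x.1 == y.1 && x.2.1 != y.2.1
  | .inl x, .inr c => hasL c x.1 x.2.1
  | .inr c, .inl x => hasL c x.1 x.2.1
  | .inr _, .inr _ => false

/-- The graph. -/
def G : SimpleGraph (Lit ⊕ Cl) where
  Adj a b := adjB a b = true
  symm := ⟨by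
    rintro (x | c) (y | d) h
    · simp only [adjB, Bool.and_eq_true, beq_iff_eq, bne_iff_ne, ne_eq] at h ⊢
      exact ⟨h.1.symm, fun h' => h.2 h'.symm⟩
    · exact h
    · exact h
    · simp [adjB] at h⟩
  loopless := ⟨by
    rintro (x | c) h
    · simp [adjB] at h
    · simp [adjB] at h⟩

instance : DecidableRel G.Adj := fun a b => inferInstanceAs (Decidable (adjB a b = true))

lemma adj_ll (x y : Lit) : G.Adj (.inl x) (.inl y) ↔ x.1 = y.1 ∧ x.2.1 ≠ y.2.1 := by
  change adjB _ _ = true ↔ _
  simp [adjB]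

lemma adj_lc (x : Lit) (c : Cl) : G.Adj (.inl x) (.inr c) ↔ hasL c x.1 x.2.1 = true := Iff.rfl

lemma adj_cl (x : Lit) (c : Cl) : G.Adj (.inr c) (.inl x) ↔ hasL c x.1 x.2.1 = true := Iff.rfl

lemma adj_cc (c d : Cl) : ¬ G.Adj (.inr c) (.inr d) := by
  change ¬ (adjB _ _ = true)
  simp [adjB]

set_option maxRecDepth 100000 in
lemma regular : G.IsRegularOfDegree 36 := by
  unfold SimpleGraph.IsRegularOfDegree
  decide +kernel

/-- The counting statement behind the lower bound. -/
lemma count (a : Fin 5 → Option Bool) :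
    61 ≤ (Finset.univ.filter (fun x : Lit => a x.1 = some x.2.1)).card +
      (Finset.univ.filter (fun c : Cl => a (t1 c.1) ≠ some c.2.1 ∧ a (t2 c.1) ≠ some c.2.2.1 ∧
        a (t3 c.1) ≠ some c.2.2.2)).card := by
  revert a
  decide +kernel

lemma hasL_cases (c : Cl) (v : Fin 5) (b : Bool) (h : hasL c v b = true) :
    (v = t1 c.1 ∧ b = c.2.1) ∨ (v = t2 c.1 ∧ b = c.2.2.1) ∨ (v = t3 c.1 ∧ b = c.2.2.2) := by
  simp only [hasL, Bool.or_eq_true, Bool.and_eq_true, beq_iff_eq] at h
  tauto

open Classical in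
lemma lower (D : Finset (Lit ⊕ Cl)) (hD : IsIndepDominating G D) : 61 ≤ D.card := by
  obtain ⟨hI, hDom⟩ := hD
  -- the whole side of a literal
  have h1 : ∀ v b i j, (Sum.inl (v, b, i) : Lit ⊕ Cl) ∈ D → (Sum.inl (v, b, j) : Lit ⊕ Cl) ∈ D := by
    intro v b i j hi
    by_contra hj
    obtain ⟨w, hw, hadj⟩ := hDom _ hj
    rcases w with y | c
    · rw [adj_ll] at hadj
      exact hI _ hi _ hw ((adj_ll _ _).2 hadj)
    · exact hI _ hi _ hw ((adj_lc _ _).2 ((adj_lc _ _).1 hadj))
  -- at most one side
  have h2 : ∀ v i j, (Sum.inl (v, true, i) : Lit ⊕ Cl) ∈ D →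
      (Sum.inl (v, false, j) : Lit ⊕ Cl) ∉ D := by
    intro v i j hi hj
    exact hI _ hi _ hj ((adj_ll _ _).2 ⟨rfl, by simp⟩)
  let a : Fin 5 → Option Bool := fun v =>
    if (Sum.inl (v, true, 0) : Lit ⊕ Cl) ∈ D then some true
    else if (Sum.inl (v, false, 0) : Lit ⊕ Cl) ∈ D then some false else none
  have ha : ∀ v b i, a v = some b ↔ (Sum.inl (v, b, i) : Lit ⊕ Cl) ∈ D := by
    intro v b i
    constructor
    · intro h
      apply h1 v b 0 i
      by_cases ht : (Sum.inl (v, true, 0) : Lit ⊕ Cl) ∈ D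
      · have : a v = some true := by simp [a, ht]
        rw [this] at h
        cases h
        exact ht
      · by_cases hf : (Sum.inl (v, false, 0) : Lit ⊕ Cl) ∈ D
        · have : a v = some false := by simp [a, ht, hf]
          rw [this] at h
          cases h
          exact hf
        · have : a v = none := by simp [a, ht, hf]
          rw [this] at h
          cases h
    · intro h
      have h0 := h1 v b i 0 h
      cases b
      · have ht : (Sum.inl (v, true, 0) : Lit ⊕ Cl) ∉ D := fun ht => h2 v 0 0 ht h0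
        simp [a, ht, h0]
      · simp [a, h0]
  have h3 : ∀ c : Cl, (a (t1 c.1) ≠ some c.2.1 ∧ a (t2 c.1) ≠ some c.2.2.1 ∧
        a (t3 c.1) ≠ some c.2.2.2) → (Sum.inr c : Lit ⊕ Cl) ∈ D := by
    intro c hc
    by_contra hn
    obtain ⟨w, hw, hadj⟩ := hDom _ hn
    rcases w with ⟨v, b, i⟩ | d
    · have h4 := (ha v b i).2 hw
      rw [adj_cl] at hadj
      rcases hasL_cases c v b hadj with ⟨rfl, rfl⟩ | ⟨rfl, rfl⟩ | ⟨rfl, rfl⟩
      · exact hc.1 h4
      · exact hc.2.1 h4
      · exact hc.2.2 h4
    · exact adj_cc _ _ hadj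
  have hsub : (Finset.univ.filter (fun x : Lit => a x.1 = some x.2.1)).disjSum
      (Finset.univ.filter (fun c : Cl => a (t1 c.1) ≠ some c.2.1 ∧ a (t2 c.1) ≠ some c.2.2.1 ∧
        a (t3 c.1) ≠ some c.2.2.2)) ⊆ D := by
    intro w hw
    rw [Finset.mem_disjSum] at hw
    rcases hw with ⟨x, hx, rfl⟩ | ⟨c, hc, rfl⟩
    · rw [Finset.mem_filter] at hx
      exact (ha x.1 x.2.1 x.2.2).1 hx.2
    · rw [Finset.mem_filter] at hc
      exact h3 c hc.2
  have h5 := Finset.card_le_card hsub
  rw [Finset.card_disjSum] at h5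
  have h6 := count a
  refine le_trans h6 (le_trans (le_of_eq ?_) h5)
  congr

/-- Membership in an independent dominating set with `61` vertices: the last three variables are
true, the first two are unset, and all the clauses without a true literal are taken. -/
def inD0 : Lit ⊕ Cl → Bool
  | .inl x => decide (2 ≤ x.1.val) && x.2.1
  | .inr c => !(decide (2 ≤ (t1 c.1).val) && c.2.1) && !(decide (2 ≤ (t2 c.1).val) && c.2.2.1) &&
      !(decide (2 ≤ (t3 c.1).val) && c.2.2.2)

/-- The independent dominating set. -/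
def D0 : Finset (Lit ⊕ Cl) := Finset.univ.filter (fun w => inD0 w = true)

lemma D0_card : D0.card = 61 := by decide +kernel

lemma D0_indep : ∀ u v : Lit ⊕ Cl, inD0 u = true → inD0 v = true → ¬ adjB u v = true := by
  decide +kernel

lemma D0_domin : ∀ v : Lit ⊕ Cl, inD0 v = true ∨ ∃ w, inD0 w = true ∧ adjB v w = true := by
  decide +kernel

lemma mem_D0 (w : Lit ⊕ Cl) : w ∈ D0 ↔ inD0 w = true := by
  unfold D0
  simp

lemma D0_dom : IsIndepDominating G D0 := by
  constructor
  · intro u hu v hv h
    exact D0_indep u v ((mem_D0 u).1 hu) ((mem_D0 v).1 hv) h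
  · intro v hv
    rcases D0_domin v with h | ⟨w, hw, h⟩
    · exact absurd ((mem_D0 v).2 h) hv
    · exact ⟨w, (mem_D0 w).2 hw, h⟩

lemma indep_dom_number : independentDominationNumber G = 61 := by
  unfold independentDominationNumber
  apply le_antisymm
  · exact Nat.sInf_le ⟨D0, D0_card, D0_dom⟩
  · obtain ⟨S, hS, hT⟩ := Nat.sInf_mem
      (⟨61, D0, D0_card, D0_dom⟩ :
        {k | ∃ S : Finset (Lit ⊕ Cl), S.card = k ∧ IsIndepDominating G S}.Nonempty)
    rw [← hS]
    exact lower S hT

open Classical in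
/-- The union of the perfect matchings of the complete bipartite graphs. -/
noncomputable def M0 : Finset (Sym2 (Lit ⊕ Cl)) :=
  (Finset.univ : Finset (Fin 5 × Fin 12)).image
    (fun p => s((Sum.inl (p.1, true, p.2) : Lit ⊕ Cl), Sum.inl (p.1, false, p.2)))

lemma M0_card : M0.card ≤ 60 := by
  classical
  refine le_trans Finset.card_image_le ?_
  simp

lemma mem_M0 (e : Sym2 (Lit ⊕ Cl)) : e ∈ M0 ↔ ∃ p : Fin 5 × Fin 12,
    s((Sum.inl (p.1, true, p.2) : Lit ⊕ Cl), Sum.inl (p.1, false, p.2)) = e := by
  classical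
  unfold M0
  simp

lemma M0_max : IsMaximalMatching G M0 := by
  refine ⟨⟨?_, ?_⟩, ?_⟩
  · intro e he
    obtain ⟨p, rfl⟩ := (mem_M0 e).1 he
    rw [SimpleGraph.mem_edgeSet, adj_ll]
    exact ⟨rfl, by simp⟩
  · intro e he f hf hne v hv hv'
    obtain ⟨p, rfl⟩ := (mem_M0 e).1 he
    obtain ⟨q, rfl⟩ := (mem_M0 f).1 hf
    apply hne
    have hpq : p = q := by
      rw [Sym2.mem_iff] at hv hv'
      rcases hv with rfl | rfl
      · rcases hv' with h | h
        · simp only [Sum.inl.injEq, Prod.mk.injEq, true_and] at h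
          exact Prod.ext h.1 h.2
        · simp at h
      · rcases hv' with h | h
        · simp at h
        · simp only [Sum.inl.injEq, Prod.mk.injEq, true_and] at h
          exact Prod.ext h.1 h.2
    rw [hpq]
  · intro M' hM' hsub
    apply Finset.Subset.antisymm _ hsub
    intro e he
    by_contra hn
    have key : ∀ x : Lit, (Sum.inl x : Lit ⊕ Cl) ∉ e := by
      rintro ⟨v, b, i⟩ hx
      have hmem : s((Sum.inl (v, true, i) : Lit ⊕ Cl), Sum.inl (v, false, i)) ∈ M0 :=
        (mem_M0 _).2 ⟨(v, i), rfl⟩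
      refine hM'.2 _ (hsub hmem) e he ?_ (Sum.inl (v, b, i)) ?_ hx
      · rintro rfl
        exact hn hmem
      · rw [Sym2.mem_iff]
        cases b
        · exact Or.inr rfl
        · exact Or.inl rfl
    have hadj := hM'.1 e he
    induction e using Sym2.ind with
    | _ x y =>
      rw [SimpleGraph.mem_edgeSet] at hadj
      rcases x with x | c
      · exact key x (Sym2.mem_mk_left _ _)
      · rcases y with y | d
        · exact key y (Sym2.mem_mk_right _ _)
        · exact adj_cc c d hadj

lemma saturation : saturationNumber G ≤ 60 :=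
  le_trans (Nat.sInf_le ⟨M0, rfl, M0_max⟩) M0_card

lemma connected : G.Connected := by
  have base : ∀ i, G.Reachable (.inl (0, true, 0)) (.inl (0, false, i)) := fun i =>
    ((adj_ll (0, true, 0) (0, false, i)).2 ⟨rfl, by simp⟩).reachable
  have base' : ∀ i, G.Reachable (.inl (0, true, 0)) (.inl (0, true, i)) := fun i =>
    (base 0).trans ((adj_ll (0, false, 0) (0, true, i)).2 ⟨rfl, by simp⟩).reachable
  have h1 : ∀ v : Fin 5, v ≠ 0 → ∀ b : Bool, ∃ c : Cl, hasL c v b = true ∧
      hasL c 0 true = true := by decide +kernel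
  have hlit : ∀ x : Lit, G.Reachable (.inl (0, true, 0)) (.inl x) := by
    rintro ⟨v, b, i⟩
    by_cases hv : v = 0
    · subst hv
      cases b
      · exact base i
      · exact base' i
    · obtain ⟨c, hc1, hc2⟩ := h1 v hv b
      exact (((adj_lc (0, true, 0) c).2 hc2).reachable).trans
        ((adj_cl (v, b, i) c).2 hc1).reachable
  have hcl : ∀ c : Cl, hasL c (t1 c.1) c.2.1 = true := by
    intro c
    simp [hasL]
  have key : ∀ w, G.Reachable (.inl (0, true, 0)) w := by
    rintro (x | c)
    · exact hlit x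
    · exact (hlit (t1 c.1, c.2.1, 0)).trans
        ((adj_lc (t1 c.1, c.2.1, 0) c).2 (hcl c)).reachable
  have : Nonempty (Lit ⊕ Cl) := ⟨.inl (0, true, 0)⟩
  exact ⟨fun u v => (key u).symm.trans (key v)⟩

/-- **The answer to Question 1 is negative.** There is a connected `36`-regular graph on `200`
vertices whose independent domination number (`61`) exceeds its saturation number
(at most `60`). -/
theorem result : ∃ (V : Type) (_ : Fintype V) (G : SimpleGraph V) (_ : DecidableRel G.Adj),
    Fintype.card V = 200 ∧ G.Connected ∧ G.IsRegularOfDegree 36 ∧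
    independentDominationNumber G = 61 ∧ saturationNumber G ≤ 60 :=
  ⟨Lit ⊕ Cl, inferInstance, G, inferInstance, by simp, connected, regular, indep_dom_number,
    saturation⟩

end Pool.Agent.Results.MP_763dcb_co.ThirtySixRegular
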